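import Pool.Agent.Run7.h469.CT.Map

/-! Almost all trajectories of the `q x + c` maps avoid exceptional sets which are small in the residue classes of large
moduli. -/

set_option autoImplicit false

namespace Run7.h469.CT

open Finset

/-- In every residue class `a` of every modulus `q ≤ x ^ (θ - ρ)` with a small `gcd(a, q)` the property `Q` has few
exceptions. -/
def Few (θ : ℝ) (Q : ℕ → Prop) : Prop := ∀ ρ : ℝ, 0 < ρ → ∀ A T : ℕ, ∃ x₀ : ℝ, ∀ x : ℝ, x₀ ≤ x → ∀ q : ℕ, 1 ≤ q →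
  (q : ℝ) ≤ x ^ (θ - ρ) → ∀ a : ℤ, (Int.gcd a q : ℝ) ≤ Real.log x ^ T →
    ({n : ℕ | 0 < n ∧ (n : ℝ) ≤ x ∧ (n : ℤ) ≡ a [ZMOD q] ∧ ¬ Q n}).Finite ∧
      (({n : ℕ | 0 < n ∧ (n : ℝ) ≤ x ∧ (n : ℤ) ≡ a [ZMOD q] ∧ ¬ Q n}.ncard : ℕ) : ℝ) ≤ x / (q * Real.log x ^ A)

variable {q c : ℕ}

open Classical in
theorem class_card (hq1 : 1 ≤ q) (hc1 : 1 ≤ c) (Q : ℕ → Prop) (N k u r : ℕ) (hu : 1 ≤ u) (x b : ℝ)
    (hx : ∀ m : ℕ, 1 ≤ m → m ≤ N → m % 2 ^ k = r → ((u * (step q c)^[k] m : ℕ) : ℝ) ≤ x)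
    (hfin : ({n : ℕ | 0 < n ∧ (n : ℝ) ≤ x ∧ (n : ℤ) ≡ ((u * (step q c)^[k] r : ℕ) : ℤ)
      [ZMOD ((u * q ^ (odds q c k r) : ℕ) : ℤ)] ∧ ¬ Q n}).Finite)
    (hb : (({n : ℕ | 0 < n ∧ (n : ℝ) ≤ x ∧ (n : ℤ) ≡ ((u * (step q c)^[k] r : ℕ) : ℤ)
      [ZMOD ((u * q ^ (odds q c k r) : ℕ) : ℤ)] ∧ ¬ Q n}.ncard : ℕ) : ℝ) ≤ b) :
    (((Icc 1 N).filter (fun m => m % 2 ^ k = r ∧ ¬ Q (u * (step q c)^[k] m))).card : ℝ) ≤ b := by
  refine le_trans ?_ hb
  rw [Set.ncard_eq_toFinset_card _ hfin]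
  have h : ((Icc 1 N).filter (fun m => m % 2 ^ k = r ∧ ¬ Q (u * (step q c)^[k] m))).card ≤ hfin.toFinset.card := by
    apply card_le_card_of_injOn (fun m => u * (step q c)^[k] m)
    · intro m hm
      rw [mem_coe, mem_filter, mem_Icc] at hm
      obtain ⟨⟨h1, h2⟩, h3, h4⟩ := hm
      rw [mem_coe, Set.Finite.mem_toFinset]
      refine ⟨Nat.mul_pos hu (iter_pos hq1 hc1 k h1), hx m h1 h2 h3, ?_, h4⟩
      have e : m = 2 ^ k * (m / 2 ^ k) + r := by rw [← h3, Nat.div_add_mod]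
      have e2 : (step q c)^[k] m = q ^ (odds q c k r) * (m / 2 ^ k) + (step q c)^[k] r := by
        conv_lhs => rw [e]
        rw [iter_add]
      simp only [e2]
      have e3 : u * (q ^ odds q c k r * (m / 2 ^ k) + (step q c)^[k] r) =
        (u * q ^ odds q c k r) * (m / 2 ^ k) + u * (step q c)^[k] r := by ring
      rw [e3]
      push_cast
      exact (Int.modEq_iff_dvd.2 ⟨-((m / 2 ^ k : ℕ) : ℤ), by push_cast; ring⟩)
    · intro m hm m' hm' hmm
      rw [mem_coe, mem_filter] at hm hm'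
      obtain ⟨-, h3, -⟩ := hm
      obtain ⟨-, h3', -⟩ := hm'
      have e : m = 2 ^ k * (m / 2 ^ k) + r := by rw [← h3, Nat.div_add_mod]
      have e' : m' = 2 ^ k * (m' / 2 ^ k) + r := by rw [← h3', Nat.div_add_mod]
      have e2 : (step q c)^[k] m = q ^ (odds q c k r) * (m / 2 ^ k) + (step q c)^[k] r := by
        conv_lhs => rw [e]
        rw [iter_add]
      have e2' : (step q c)^[k] m' = q ^ (odds q c k r) * (m' / 2 ^ k) + (step q c)^[k] r := by
        conv_lhs => rw [e']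
        rw [iter_add]
      simp only [e2, e2'] at hmm
      have h5 := Nat.eq_of_mul_eq_mul_left (by omega : 0 < u) hmm
      have h6 : q ^ (odds q c k r) * (m / 2 ^ k) = q ^ (odds q c k r) * (m' / 2 ^ k) := by omega
      have h7 := Nat.eq_of_mul_eq_mul_left (by positivity) h6
      rw [e, e', h7]
  exact_mod_cast h

theorem growth_real (hq1 : 1 ≤ q) (N k u r m : ℕ) (hmN : m ≤ N) (hmr : m % 2 ^ k = r)
    (hck : ((c * k : ℕ) : ℝ) ≤ (N : ℝ) / 2 ^ k) :
    ((u * (step q c)^[k] m : ℕ) : ℝ) ≤ 2 * (u * q ^ (odds q c k r) * ((N : ℝ) / 2 ^ k)) := by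
  have h1 := growth (c := c) hq1 k m
  rw [odds_mod, hmr] at h1
  have h2 : ((2 ^ k * (step q c)^[k] m : ℕ) : ℝ) ≤ ((q ^ (odds q c k r) * (m + c * k * 2 ^ k) : ℕ) : ℝ) := by
    exact_mod_cast h1
  push_cast at h2 hck ⊢
  have h2k : (0 : ℝ) < 2 ^ k := by positivity
  have h3 : ((step q c)^[k] m : ℝ) ≤ q ^ (odds q c k r) * (2 * ((N : ℝ) / 2 ^ k)) := by
    have h4 : (m : ℝ) ≤ N := by exact_mod_cast hmN
    have h5 : (2 : ℝ) ^ k * ((step q c)^[k] m : ℝ) ≤ 2 ^ k * (q ^ (odds q c k r) * (2 * ((N : ℝ) / 2 ^ k))) := by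
      refine h2.trans ?_
      have h6 : (m : ℝ) + c * k * 2 ^ k ≤ 2 ^ k * (2 * ((N : ℝ) / 2 ^ k)) := by
        have h7 : (c : ℝ) * k * 2 ^ k ≤ N := by
          have := mul_le_mul_of_nonneg_right hck h2k.le
          rwa [div_mul_cancel₀ _ h2k.ne'] at this
        have h8 : (2 : ℝ) ^ k * (2 * ((N : ℝ) / 2 ^ k)) = 2 * N := by field_simp
        rw [h8]
        linarith
      calc (q : ℝ) ^ (odds q c k r) * (m + c * k * 2 ^ k)
          ≤ q ^ (odds q c k r) * (2 ^ k * (2 * ((N : ℝ) / 2 ^ k))) :=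
            mul_le_mul_of_nonneg_left h6 (by positivity)
        _ = _ := by ring
    exact le_of_mul_le_mul_left h5 h2k
  calc (u : ℝ) * ((step q c)^[k] m : ℝ) ≤ u * (q ^ (odds q c k r) * (2 * ((N : ℝ) / 2 ^ k))) :=
        mul_le_mul_of_nonneg_left h3 (Nat.cast_nonneg _)
    _ = _ := by ring

/-- the number of the integers up to `N` in a class -/
theorem class_le (N M r : ℕ) : ((Icc 1 N).filter (fun m => m % M = r)).card ≤ N / M + 1 := by
  have h : ((Icc 1 N).filter (fun m => m % M = r)).card ≤ (range (N / M + 1)).card := by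
    apply card_le_card_of_injOn (fun m => m / M)
    · intro m hm
      rw [mem_coe, mem_filter, mem_Icc] at hm
      rw [mem_coe, mem_range]
      exact Nat.lt_succ_of_le (Nat.div_le_div_right hm.1.2)
    · intro m hm m' hm' h
      rw [mem_coe, mem_filter] at hm hm'
      simp only at h
      rw [← Nat.div_add_mod m M, ← Nat.div_add_mod m' M, hm.2, hm'.2, h]
  rwa [card_range] at h

theorem exp_half (v : ℝ) : 1 + Real.exp v ≤ 2 * Real.exp (v / 2 + v ^ 2 / 8) := by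
  have h := Real.cosh_le_exp_half_sq (v / 2)
  have e : 1 + Real.exp v = 2 * (Real.exp (v / 2) * Real.cosh (v / 2)) := by
    rw [Real.cosh_eq]
    have h1 : Real.exp (v / 2) * Real.exp (v / 2) = Real.exp v := by rw [← Real.exp_add]; congr 1; ring
    have h2 : Real.exp (v / 2) * Real.exp (-(v / 2)) = 1 := by rw [← Real.exp_add]; simp
    linear_combination -h1 - h2
  rw [e, Real.exp_add]
  have h3 : (v / 2) ^ 2 / 2 = v ^ 2 / 8 := by ring
  rw [h3] at h
  have := mul_le_mul_of_nonneg_left h (Real.exp_pos (v / 2)).le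
  linarith

/-- the number of the classes with too many odd steps -/
theorem bad_classes (hq : Odd q) (k : ℕ) (s τ σ Y : ℝ) (hs : 0 ≤ s) :
    (((range (2 ^ k)).filter (fun r => σ * Y < τ * (odds q c k r * Real.log q))).card : ℝ) ≤
      2 ^ k * Real.exp (k * (s * τ * Real.log q / 2 + (s * τ * Real.log q) ^ 2 / 8) - s * σ * Y) := by
  obtain ⟨z, hz⟩ : ∃ z, z = Real.exp (s * τ * Real.log q) := ⟨_, rfl⟩
  have hz0 : 0 ≤ z := by rw [hz]; exact (Real.exp_pos _).le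
  have h1 := moment (q := q) (c := c) hq z hz0 k
  have h2 : (((range (2 ^ k)).filter (fun r => σ * Y < τ * (odds q c k r * Real.log q))).card : ℝ) ≤
      ∑ r ∈ range (2 ^ k), z ^ (odds q c k r) * Real.exp (-(s * σ * Y)) := by
    rw [card_eq_sum_ones, Nat.cast_sum]
    refine le_trans ?_ (sum_le_sum_of_subset_of_nonneg (filter_subset (fun r => σ * Y <
      τ * (odds q c k r * Real.log q)) _) (fun i _ _ => by positivity))
    apply sum_le_sum
    intro r hr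
    rw [mem_filter] at hr
    rw [hz, ← Real.exp_nat_mul, ← Real.exp_add, Nat.cast_one]
    apply Real.one_le_exp
    have := mul_le_mul_of_nonneg_left hr.2.le hs
    linarith
  refine h2.trans ?_
  rw [← sum_mul]
  have h3 : (1 + z) ^ k ≤ 2 ^ k * Real.exp (k * (s * τ * Real.log q / 2 + (s * τ * Real.log q) ^ 2 / 8)) := by
    rw [Real.exp_nat_mul, ← mul_pow, hz]
    apply pow_le_pow_left₀ (by positivity)
    exact exp_half _
  calc (∑ r ∈ range (2 ^ k), z ^ (odds q c k r)) * Real.exp (-(s * σ * Y))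
      ≤ (2 ^ k * Real.exp (k * (s * τ * Real.log q / 2 + (s * τ * Real.log q) ^ 2 / 8))) * Real.exp (-(s * σ * Y)) :=
        mul_le_mul_of_nonneg_right (h1.trans h3) (Real.exp_pos _).le
    _ = _ := by rw [mul_assoc, ← Real.exp_add]; congr 2

end Run7.h469.CT
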