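import Pool.Agent.Run7.h469.CT.Main

/-! General forms of the theorem on trajectories. -/

set_option autoImplicit false

namespace Run7.h469.CT

open Finset Filter Topology

open Classical in
theorem general (q c : ℕ) (hq : Odd q) (hc : Odd c) (hcq : Nat.Coprime c q) (θ κ : ℝ) (hθ0 : 0 < θ) (hθ1 : θ < 1)
    (hκ : κ * (θ * Real.log 2 + (1 - θ) / 2 * Real.log q) < θ) (P : ℕ → Prop) (hP : Few θ P)
    (A U : ℕ) : ∃ N₀ : ℕ, ∀ N : ℕ, N₀ ≤ N →
      (((Icc 1 N).filter (fun m => ∃ k u : ℕ, (k : ℝ) ≤ κ * Real.log N ∧ 1 ≤ u ∧ (u : ℝ) ≤ Real.log N ^ U ∧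
        ¬ P (u * (step q c)^[k] m))).card : ℝ) ≤ N / Real.log N ^ A := by
  have hqr : (1 : ℝ) ≤ q := by exact_mod_cast hq.pos
  have hlogq : 0 ≤ Real.log q := Real.log_nonneg hqr
  have hl2 : 0 < Real.log 2 := Real.log_pos (by norm_num)
  obtain ⟨V, hV⟩ : ∃ V, V = θ * Real.log 2 + (1 - θ) / 2 * Real.log q := ⟨_, rfl⟩
  have hV0 : 0 < V := by
    rw [hV]
    have : 0 ≤ (1 - θ) / 2 := by linarith
    positivity
  rw [← hV] at hκ
  obtain ⟨κ', hκ'0, hκκ', hκ'⟩ : ∃ κ' : ℝ, 0 < κ' ∧ κ ≤ κ' ∧ κ' * V < θ := by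
    refine ⟨max κ (θ / V / 2), lt_max_of_lt_right (by positivity), le_max_left _ _, ?_⟩
    rcases max_choice κ (θ / V / 2) with h | h
    · rw [h]; exact hκ
    · rw [h]
      have : θ / V / 2 * V = θ / 2 := by field_simp
      rw [this]
      linarith
  rw [hV] at hκ'
  obtain ⟨N₀, hN₀⟩ := core (q := q) (c := c) hq hc hcq θ κ' hθ0 hθ1 hκ'0 hκ' P hP A U
  refine ⟨N₀ + 1, fun N hN => le_trans ?_ (hN₀ N (by omega))⟩
  have hlogN : 0 ≤ Real.log N := Real.log_nonneg (by exact_mod_cast (by omega : 1 ≤ N))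
  apply Nat.cast_le.2
  apply card_le_card
  intro m hm
  rw [mem_filter] at hm ⊢
  obtain ⟨h1, k, u, h2, h3⟩ := hm
  exact ⟨h1, k, u, h2.trans (mul_le_mul_of_nonneg_right hκκ' hlogN), h3⟩

open Classical in
/-- The version for almost all starting values. -/
theorem almost (q c : ℕ) (P : ℕ → Prop) (κ : ℝ) (hκ0 : 0 ≤ κ) (U : ℕ)
    (h : ∃ N₀ : ℕ, ∀ N : ℕ, N₀ ≤ N →
      (((Icc 1 N).filter (fun m => ∃ k u : ℕ, (k : ℝ) ≤ κ * Real.log N ∧ 1 ≤ u ∧ (u : ℝ) ≤ Real.log N ^ U ∧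
        ¬ P (u * (step q c)^[k] m))).card : ℝ) ≤ N / Real.log N ^ 1) :
    Tendsto (fun N : ℕ => (((Icc 1 N).filter (fun m : ℕ => ¬ ∀ k u : ℕ, (k : ℝ) ≤ κ * Real.log m → 1 ≤ u →
      (u : ℝ) ≤ Real.log m ^ U → P (u * (step q c)^[k] m))).card : ℝ) / N) atTop (𝓝 0) := by
  obtain ⟨N₀, hN₀⟩ := h
  have hlog : Tendsto (fun N : ℕ => 1 / Real.log (N : ℝ)) atTop (𝓝 0) := by
    have h1 : Tendsto (fun N : ℕ => Real.log (N : ℝ)) atTop atTop :=
      Real.tendsto_log_atTop.comp tendsto_natCast_atTop_atTop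
    simp only [one_div]
    exact tendsto_inv_atTop_zero.comp h1
  refine squeeze_zero' (Eventually.of_forall (fun N => by positivity)) ?_ hlog
  filter_upwards [eventually_ge_atTop (N₀ + 2)] with N hN
  have hN2 : (2 : ℝ) ≤ N := by exact_mod_cast (by omega : 2 ≤ N)
  have hN0 : (0 : ℝ) < N := by linarith
  rw [div_le_iff₀ hN0]
  have h5 := hN₀ N (by omega)
  rw [pow_one] at h5
  have h6 : 1 / Real.log (N : ℝ) * N = N / Real.log N := by ring
  rw [h6]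
  refine le_trans ?_ h5
  apply Nat.cast_le.2
  apply card_le_card
  intro m hm
  rw [mem_filter] at hm ⊢
  obtain ⟨h7, h8⟩ := hm
  refine ⟨h7, ?_⟩
  push Not at h8
  obtain ⟨k, u, h9, h10, h11, h12⟩ := h8
  rw [mem_Icc] at h7
  have hm1 : (1 : ℝ) ≤ m := by exact_mod_cast h7.1
  have hmN : Real.log m ≤ Real.log N := Real.log_le_log (by linarith) (by exact_mod_cast h7.2)
  have hm0 : 0 ≤ Real.log m := Real.log_nonneg hm1
  exact ⟨k, u, h9.trans (mul_le_mul_of_nonneg_left hmN hκ0), h10, h11.trans (pow_le_pow_left₀ hm0 hmN U), h12⟩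

lemma log_three_lt : Real.log 3 < 11 / 10 := by
  rw [Real.log_lt_iff_lt_exp (by norm_num)]
  have h1 := Real.exp_one_gt_d9
  have h2 : (11 / 10 : ℝ) = 1 + 1 / 10 := by norm_num
  have h7 := Real.quadratic_le_exp_of_nonneg (x := 1 / 10) (by norm_num)
  rw [h2, Real.exp_add]
  nlinarith

end Run7.h469.CT
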