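import Pool.Agent.Run7.h469.CT.Count

/-! The main theorem on the trajectories of the `q x + c` maps. -/

set_option autoImplicit false

namespace Run7.h469.CT

open Finset Filter

variable {q c : ℕ}

open Classical in
/-- the estimate in a class with few odd steps -/
theorem good_class (hq : Odd q) (hc : Odd c) (hcq : Nat.Coprime c q) (θ ρ : ℝ) (hρ : 0 < ρ) (hθ0 : 0 < θ) (hθ1 : θ < 1)
    (Q : ℕ → Prop) (A T : ℕ) (x₀ : ℝ)
    (hx₀ : ∀ x : ℝ, x₀ ≤ x → ∀ q : ℕ, 1 ≤ q → (q : ℝ) ≤ x ^ (θ - ρ) → ∀ a : ℤ, (Int.gcd a q : ℝ) ≤ Real.log x ^ T →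
      ({n : ℕ | 0 < n ∧ (n : ℝ) ≤ x ∧ (n : ℤ) ≡ a [ZMOD q] ∧ ¬ Q n}).Finite ∧
        (({n : ℕ | 0 < n ∧ (n : ℝ) ≤ x ∧ (n : ℤ) ≡ a [ZMOD q] ∧ ¬ Q n}.ncard : ℕ) : ℝ) ≤ x / (q * Real.log x ^ A))
    (N k u r : ℕ) (hu : 1 ≤ u) (y l : ℝ) (hy : y = (N : ℝ) / 2 ^ k) (hl : 1 ≤ l) (hly : l ≤ Real.log y) (hy0 : x₀ ≤ y)
    (hy1 : 1 ≤ y) (hck : ((c * k : ℕ) : ℝ) ≤ y) (huT : (u : ℝ) ≤ l ^ T) (huρ : Real.log u ≤ ρ * l)
    (hgood : (1 - (θ - 2 * ρ)) * (odds q c k r * Real.log q) ≤ (θ - 2 * ρ) * Real.log y) :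
    (((Icc 1 N).filter (fun m => m % 2 ^ k = r ∧ ¬ Q (u * (step q c)^[k] m))).card : ℝ) ≤
      2 * y / l ^ A := by
  have hq1 : 1 ≤ q := hq.pos
  have hc1 : 1 ≤ c := hc.pos
  obtain ⟨a, ha⟩ : ∃ a, a = odds q c k r := ⟨_, rfl⟩
  rw [← ha] at hgood
  have hy00 : 0 < y := by linarith
  have hqr : (1 : ℝ) ≤ q := by exact_mod_cast hq1
  have hur : (1 : ℝ) ≤ u := by exact_mod_cast hu
  have hqa : (1 : ℝ) ≤ (q : ℝ) ^ a := one_le_pow₀ hqr
  obtain ⟨x, hx⟩ : ∃ x, x = 2 * ((u : ℝ) * q ^ a * y) := ⟨_, rfl⟩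
  have huq : (1 : ℝ) ≤ (u : ℝ) * q ^ a := by nlinarith
  have hxy : y ≤ x := by rw [hx]; nlinarith
  have hx0 : 0 < x := by linarith
  have hlogq : 0 ≤ Real.log q := Real.log_nonneg hqr
  have hlogu : 0 ≤ Real.log u := Real.log_nonneg hur
  have hlx : Real.log x = Real.log 2 + Real.log u + a * Real.log q + Real.log y := by
    rw [hx, Real.log_mul (by norm_num) (by positivity), Real.log_mul (by positivity) (by positivity),
      Real.log_mul (by positivity) (by positivity), Real.log_pow]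
    ring
  have hl2 : 0 < Real.log 2 := Real.log_pos (by norm_num)
  have haq : 0 ≤ a * Real.log q := by positivity
  have hlxl : l ≤ Real.log x := by rw [hlx]; linarith
  have hcond : ((u * q ^ a : ℕ) : ℝ) ≤ x ^ (θ - ρ) := by
    push_cast
    have e1 : (u : ℝ) * q ^ a = Real.exp (Real.log u + a * Real.log q) := by
      rw [Real.exp_add, Real.exp_log (by linarith), Real.exp_nat_mul, Real.exp_log (by linarith)]
    rw [e1, Real.rpow_def_of_pos hx0]
    apply Real.exp_le_exp.2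
    rw [hlx]
    rcases le_or_gt (θ - ρ) 0 with hneg | hpos
    · -- then `θ - 2 ρ < 0`, and the class is not good unless trivial
      have h1 : (θ - 2 * ρ) * Real.log y < 0 := by
        apply mul_neg_of_neg_of_pos (by linarith) (by linarith)
      have h2 : 0 ≤ (1 - (θ - 2 * ρ)) * (a * Real.log q) := by
        apply mul_nonneg _ haq
        linarith
      linarith
    · have h1 : (1 - (θ - ρ)) * (a * Real.log q) ≤ (θ - 2 * ρ) * Real.log y := by
        refine le_trans ?_ hgood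
        apply mul_le_mul_of_nonneg_right _ haq
        linarith
      have h2 : (1 - (θ - ρ)) * Real.log u ≤ ρ * Real.log y := by
        have h3 : (1 - (θ - ρ)) * Real.log u ≤ 1 * Real.log u := by
          apply mul_le_mul_of_nonneg_right _ hlogu
          linarith
        have h4 : ρ * l ≤ ρ * Real.log y := mul_le_mul_of_nonneg_left hly hρ.le
        linarith
      have h5 : 0 ≤ (θ - ρ) * Real.log 2 := by positivity
      nlinarith
  have hgcd : (Int.gcd ((u * (step q c)^[k] r : ℕ) : ℤ) ((u * q ^ a : ℕ) : ℤ) : ℝ) ≤ Real.log x ^ T := by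
    rw [Int.gcd_natCast_natCast, Nat.gcd_mul_left]
    have h1 : Nat.gcd ((step q c)^[k] r) (q ^ a) = 1 := by
      rw [ha]
      exact coprime_pow hq hcq hc k r
    rw [h1, mul_one]
    exact huT.trans (pow_le_pow_left₀ (by linarith) hlxl T)
  obtain ⟨hfin, hcard⟩ := hx₀ x (hy0.trans hxy) (u * q ^ a) (Nat.mul_pos hu (by positivity)) hcond
    ((u * (step q c)^[k] r : ℕ) : ℤ) hgcd
  rw [ha] at hfin hcard
  have h := class_card (c := c) hq1 hc1 Q N k u r hu x _ (fun m _ hm hmr => by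
    have := growth_real (c := c) hq1 N k u r m hm hmr (by rw [← hy]; exact hck)
    rw [hx, hy, ha]
    exact this) hfin hcard
  refine le_trans (le_of_eq ?_) (h.trans ?_)
  · congr 2
  · have hlA : (0 : ℝ) < l ^ A := by positivity
    have e : x / (((u * q ^ odds q c k r : ℕ) : ℝ) * Real.log x ^ A) = 2 * y / Real.log x ^ A := by
      rw [hx, ← ha]
      push_cast
      have h3 : (u : ℝ) * q ^ a ≠ 0 := by positivity
      have h4 : Real.log x ^ A ≠ 0 := by
        have : 0 < Real.log x := by linarith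
        positivity
      field_simp
    rw [e]
    apply div_le_div_of_nonneg_left (by positivity) hlA
    exact pow_le_pow_left₀ (by linarith) hlxl A

/-- the choice of the parameters `ρ` and `s` -/
theorem params (θ κ lq l2 : ℝ) (hθ0 : 0 < θ) (hθ1 : θ < 1) (hκ0 : 0 < κ) (hlq : 0 ≤ lq) (hl2 : 0 ≤ l2)
    (hκ : κ * (θ * l2 + (1 - θ) / 2 * lq) < θ) :
    ∃ ρ s η : ℝ, 0 < ρ ∧ 0 < θ - 2 * ρ ∧ 0 < s ∧ 0 < η ∧
      s * (κ * ((1 - (θ - 2 * ρ)) * lq / 2 + s * ((1 - (θ - 2 * ρ)) * lq) ^ 2 / 8 + (θ - 2 * ρ) * l2) - (θ - 2 * ρ))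
        ≤ -η := by
  obtain ⟨D, hD⟩ : ∃ D, D = θ - κ * (θ * l2 + (1 - θ) / 2 * lq) := ⟨_, rfl⟩
  have hD0 : 0 < D := by rw [hD]; linarith
  obtain ⟨ρ, hρ⟩ : ∃ ρ, ρ = min (θ / 4) (D / (4 * (1 + κ * lq))) := ⟨_, rfl⟩
  have hk : 0 < 1 + κ * lq := by positivity
  have hρ0 : 0 < ρ := by rw [hρ]; exact lt_min (by linarith) (by positivity)
  have hρ1 : ρ ≤ θ / 4 := by rw [hρ]; exact min_le_left _ _
  have hρ2 : ρ * (4 * (1 + κ * lq)) ≤ D := by
    have : ρ ≤ D / (4 * (1 + κ * lq)) := by rw [hρ]; exact min_le_right _ _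
    rwa [le_div_iff₀ (by positivity)] at this
  obtain ⟨s, hs⟩ : ∃ s, s = D / (κ * lq ^ 2 + 1) := ⟨_, rfl⟩
  have hs0 : 0 < s := by rw [hs]; positivity
  have hs1 : s * (κ * lq ^ 2) ≤ D := by
    have h1 : s * (κ * lq ^ 2 + 1) = D := by rw [hs]; field_simp
    nlinarith
  refine ⟨ρ, s, s * (D / 4), hρ0, by linarith, hs0, by positivity, ?_⟩
  have hσ0 : 0 < θ - 2 * ρ := by linarith
  obtain ⟨t, ht⟩ : ∃ t, t = 1 - (θ - 2 * ρ) := ⟨_, rfl⟩
  have ht0 : 0 < t := by rw [ht]; linarith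
  have ht1 : t ≤ 1 := by rw [ht]; linarith
  have hmain : κ * (t * lq / 2 + s * (t * lq) ^ 2 / 8 + (θ - 2 * ρ) * l2) - (θ - 2 * ρ) ≤ -(D / 4) := by
    have h2 : κ * (s * (t * lq) ^ 2 / 8) ≤ D / 8 := by
      have h3 : (t * lq) ^ 2 ≤ lq ^ 2 := by
        apply pow_le_pow_left₀ (by positivity)
        nlinarith
      have h4 : κ * s * (t * lq) ^ 2 ≤ κ * s * lq ^ 2 := mul_le_mul_of_nonneg_left h3 (by positivity)
      nlinarith
    have h5 : κ * (t * lq / 2) = κ * ((1 - θ) / 2 * lq) + ρ * κ * lq := by rw [ht]; ring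
    have h6 : 0 ≤ κ * (2 * ρ * l2) := by positivity
    have h7 : κ * (t * lq / 2 + s * (t * lq) ^ 2 / 8 + (θ - 2 * ρ) * l2) - (θ - 2 * ρ) =
      κ * (t * lq / 2) + κ * (s * (t * lq) ^ 2 / 8) + κ * (θ * l2) - κ * (2 * ρ * l2) - θ + 2 * ρ := by ring
    have h8 : κ * (θ * l2) + κ * ((1 - θ) / 2 * lq) = θ - D := by rw [hD]; ring
    rw [h7, h5]
    nlinarith
  rw [← ht]
  have := mul_le_mul_of_nonneg_left hmain hs0.le
  linarith

open Classical in
/-- **The main theorem on trajectories.** -/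
theorem core (hq : Odd q) (hc : Odd c) (hcq : Nat.Coprime c q) (θ κ : ℝ) (hθ0 : 0 < θ) (hθ1 : θ < 1) (hκ0 : 0 < κ)
    (hκ : κ * (θ * Real.log 2 + (1 - θ) / 2 * Real.log q) < θ) (Q : ℕ → Prop) (hQ : Few θ Q) (A U : ℕ) :
    ∃ N₀ : ℕ, ∀ N : ℕ, N₀ ≤ N →
      (((Icc 1 N).filter (fun m => ∃ k u : ℕ, (k : ℝ) ≤ κ * Real.log N ∧ 1 ≤ u ∧ (u : ℝ) ≤ Real.log N ^ U ∧
        ¬ Q (u * (step q c)^[k] m))).card : ℝ) ≤ N / Real.log N ^ A := by
  have hq1 : 1 ≤ q := hq.pos
  have hc1 : 1 ≤ c := hc.pos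
  have hqr : (1 : ℝ) ≤ q := by exact_mod_cast hq1
  have hlogq : 0 ≤ Real.log q := Real.log_nonneg hqr
  have hl2 : 0 < Real.log 2 := Real.log_pos (by norm_num)
  obtain ⟨ρ, s, η, hρ0, hσ0, hs0, hη0, hpar⟩ := params θ κ (Real.log q) (Real.log 2) hθ0 hθ1 hκ0 hlogq hl2.le hκ
  obtain ⟨x₀, hx₀⟩ := hQ ρ hρ0 (A + U + 2) (U + 1)
  -- the constant `c₀`
  obtain ⟨c₀, hc₀⟩ : ∃ c₀, c₀ = 1 - κ * Real.log 2 := ⟨_, rfl⟩
  have hc₀0 : 0 < c₀ := by
    have h1 : κ * (θ * Real.log 2) < θ := by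
      have : 0 ≤ κ * ((1 - θ) / 2 * Real.log q) := by
        have : 0 ≤ (1 - θ) / 2 := by linarith
        positivity
      nlinarith
    have h2 : θ * (κ * Real.log 2) < θ * 1 := by linarith
    have h3 := lt_of_mul_lt_mul_left h2 hθ0.le
    rw [hc₀]; linarith
  have hc₀1 : c₀ ≤ 1 := by
    rw [hc₀]
    have : 0 ≤ κ * Real.log 2 := by positivity
    linarith
  -- what has to hold for large `N`
  have hlog : Tendsto (fun N : ℕ => Real.log (N : ℝ)) atTop atTop :=
    Real.tendsto_log_atTop.comp tendsto_natCast_atTop_atTop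
  have hexp : ∀ (b : ℝ), 0 < b → ∀ (P : ℕ) (C : ℝ), ∀ᶠ N : ℕ in atTop, C * Real.log (N : ℝ) ^ P ≤
      Real.exp (b * Real.log (N : ℝ)) := by
    intro b hb P C
    have h1 : Tendsto (fun x : ℝ => Real.exp (b * x) / x ^ P) atTop atTop := by
      have h0 := tendsto_exp_mul_div_rpow_atTop (P : ℝ) b hb
      simp only [Real.rpow_natCast] at h0
      exact h0
    have h2 := (h1.comp hlog).eventually_ge_atTop C
    have h3 := hlog.eventually_gt_atTop 0
    filter_upwards [h2, h3] with N h4 h5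
    simp only [Function.comp] at h4
    rwa [le_div_iff₀ (by positivity)] at h4
  have e1 := hexp c₀ hc₀0 1 (c * κ)
  have e2 := hlog.eventually_ge_atTop (1 / c₀)
  have e3 := hlog.eventually_ge_atTop ((1 / c₀) ^ (U + 1))
  have e4 := hexp c₀ hc₀0 0 (max x₀ 1)
  have e5 := hexp (ρ * c₀ / 2) (by positivity) U 1
  have e6 := hexp η hη0 (A + 2) 8
  have e7 := hlog.eventually_ge_atTop (8 * (κ + 1) * (1 / c₀) ^ (A + U + 2) + 1)
  have e8 := hlog.eventually_ge_atTop (κ + 1)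
  obtain ⟨N₀, hN₀⟩ := eventually_atTop.1 ((((((((e1.and e2).and e3).and e4).and e5).and e6).and e7).and e8).and
    (eventually_ge_atTop 3))
  refine ⟨N₀, fun N hN => ?_⟩
  obtain ⟨⟨⟨⟨⟨⟨⟨⟨f1, f2⟩, f3⟩, f4⟩, f5⟩, f6⟩, f7⟩, f8⟩, f9⟩ := hN₀ N hN
  obtain ⟨L, hL⟩ : ∃ L, L = Real.log (N : ℝ) := ⟨_, rfl⟩
  rw [← hL] at f1 f2 f3 f4 f5 f6 f7 f8 ⊢
  have hN3 : (3 : ℝ) ≤ N := by exact_mod_cast f9
  have hN0 : (0 : ℝ) < N := by linarith
  have hL1 : 1 ≤ L := by linarith
  have hL0 : 0 < L := by linarith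
  have hNexp : (N : ℝ) = Real.exp L := by rw [hL, Real.exp_log hN0]
  obtain ⟨K, hK⟩ : ∃ K, K = ⌊κ * L⌋₊ := ⟨_, rfl⟩
  obtain ⟨M, hM⟩ : ∃ M, M = ⌊L ^ U⌋₊ := ⟨_, rfl⟩
  have hMr : (M : ℝ) ≤ L ^ U := by rw [hM]; exact Nat.floor_le (by positivity)
  have hKr : (K : ℝ) ≤ κ * L := by rw [hK]; exact Nat.floor_le (by positivity)
  -- the lengths `y = N / 2 ^ k`
  have hy : ∀ k ∈ range (K + 1), c₀ * L ≤ Real.log ((N : ℝ) / 2 ^ k) ∧ Real.exp (c₀ * L) ≤ (N : ℝ) / 2 ^ k := by
    intro k hk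
    rw [mem_range] at hk
    have hkr : (k : ℝ) ≤ κ * L := by
      have : (k : ℝ) ≤ K := by exact_mod_cast (by omega : k ≤ K)
      linarith
    have h1 : Real.log ((N : ℝ) / 2 ^ k) = L - k * Real.log 2 := by
      rw [Real.log_div (by positivity) (by positivity), Real.log_pow, hL]
    have h2 : c₀ * L ≤ Real.log ((N : ℝ) / 2 ^ k) := by
      rw [h1, hc₀]
      have := mul_le_mul_of_nonneg_right hkr hl2.le
      linarith
    refine ⟨h2, ?_⟩
    have h3 := Real.exp_le_exp.2 h2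
    rwa [Real.exp_log (by positivity)] at h3
  -- the classes with many odd steps
  obtain ⟨B, hB⟩ : ∃ B : ℕ → Finset ℕ, B = fun k => (range (2 ^ k)).filter (fun r =>
    (θ - 2 * ρ) * Real.log ((N : ℝ) / 2 ^ k) < (1 - (θ - 2 * ρ)) * (odds q c k r * Real.log q)) := ⟨_, rfl⟩
  have hcover : (Icc 1 N).filter (fun m => ∃ k u : ℕ, (k : ℝ) ≤ κ * L ∧ 1 ≤ u ∧ (u : ℝ) ≤ L ^ U ∧
      ¬ Q (u * (step q c)^[k] m)) ⊆
      (range (K + 1)).biUnion (fun k => (B k).biUnion (fun r => (Icc 1 N).filter (fun m => m % 2 ^ k = r)) ∪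
        (Icc 1 M).biUnion (fun u => (range (2 ^ k) \ B k).biUnion (fun r =>
          (Icc 1 N).filter (fun m => m % 2 ^ k = r ∧ ¬ Q (u * (step q c)^[k] m))))) := by
    intro m hm
    rw [mem_filter] at hm
    obtain ⟨hmN, k, u, hk, hu1, hu2, hQm⟩ := hm
    rw [mem_biUnion]
    refine ⟨k, ?_, ?_⟩
    · rw [mem_range, hK]
      exact Nat.lt_succ_of_le (Nat.le_floor hk)
    · rw [mem_union, mem_biUnion, mem_biUnion]
      by_cases h : m % 2 ^ k ∈ B k
      · left
        exact ⟨_, h, mem_filter.2 ⟨hmN, rfl⟩⟩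
      · right
        refine ⟨u, mem_Icc.2 ⟨hu1, ?_⟩, ?_⟩
        · rw [hM]
          exact Nat.le_floor hu2
        · rw [mem_biUnion]
          refine ⟨m % 2 ^ k, Finset.mem_sdiff.2 ⟨mem_range.2 (Nat.mod_lt _ (by positivity)), h⟩, mem_filter.2 ⟨hmN, rfl, hQm⟩⟩
  have hcard := (card_le_card hcover).trans card_biUnion_le
  have hcard' : (((Icc 1 N).filter (fun m => ∃ k u : ℕ, (k : ℝ) ≤ κ * L ∧ 1 ≤ u ∧ (u : ℝ) ≤ L ^ U ∧
      ¬ Q (u * (step q c)^[k] m))).card : ℝ) ≤ ∑ k ∈ range (K + 1),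
      (2 * N * Real.exp (-(η * L)) + L ^ U * (2 * N / (c₀ * L) ^ (A + U + 2))) := by
    refine le_trans (Nat.cast_le.2 hcard) ?_
    rw [Nat.cast_sum]
    apply sum_le_sum
    intro k hk
    obtain ⟨hy1, hy2⟩ := hy k hk
    obtain ⟨y, hyy⟩ : ∃ y, y = (N : ℝ) / 2 ^ k := ⟨_, rfl⟩
    rw [← hyy] at hy1 hy2
    have h2k : (0 : ℝ) < 2 ^ k := by positivity
    have hNy : (N : ℝ) = 2 ^ k * y := by rw [hyy]; field_simp
    have hkr : (k : ℝ) ≤ κ * L := by
      rw [mem_range] at hk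
      have : (k : ℝ) ≤ K := by exact_mod_cast (by omega : k ≤ K)
      linarith
    have hymax : max x₀ 1 ≤ y := by
      rw [pow_zero, mul_one] at f4
      exact f4.trans hy2
    have hy11 : 1 ≤ y := (le_max_right _ _).trans hymax
    refine le_trans (Nat.cast_le.2 (card_union_le _ _)) ?_
    rw [Nat.cast_add]
    apply add_le_add
    · -- the classes with many odd steps
      have g1 : ((B k).biUnion (fun r => (Icc 1 N).filter (fun m => m % 2 ^ k = r))).card ≤
          (B k).card * (N / 2 ^ k + 1) :=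
        card_biUnion_le_card_mul _ _ _ (fun r _ => class_le N (2 ^ k) r)
      have g2 := bad_classes (c := c) hq k s (1 - (θ - 2 * ρ)) (θ - 2 * ρ) (Real.log y) hs0.le
      have g3 : ((B k).card : ℝ) ≤ 2 ^ k * Real.exp (-(η * L)) := by
        refine le_trans (le_of_eq ?_) (g2.trans ?_)
        · rw [hB, hyy]
        · apply mul_le_mul_of_nonneg_left _ h2k.le
          apply Real.exp_le_exp.2
          have h3 : Real.log y = L - k * Real.log 2 := by
            rw [hyy, Real.log_div (by positivity) (by positivity), Real.log_pow, hL]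
          rw [h3]
          obtain ⟨τ, hτ⟩ : ∃ τ, τ = 1 - (θ - 2 * ρ) := ⟨_, rfl⟩
          rw [← hτ] at hpar ⊢
          have hτ0 : 0 < τ := by rw [hτ]; linarith
          have h4 : (k : ℝ) * (τ * Real.log q / 2 + s * (τ * Real.log q) ^ 2 / 8 + (θ - 2 * ρ) * Real.log 2) ≤
            κ * L * (τ * Real.log q / 2 + s * (τ * Real.log q) ^ 2 / 8 + (θ - 2 * ρ) * Real.log 2) := by
            apply mul_le_mul_of_nonneg_right hkr
            positivity
          have h5 := mul_le_mul_of_nonneg_left h4 hs0.le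
          have h6 := mul_le_mul_of_nonneg_right hpar hL0.le
          have h7 : (k : ℝ) * (s * τ * Real.log q / 2 + (s * τ * Real.log q) ^ 2 / 8) -
            s * (θ - 2 * ρ) * (L - k * Real.log 2) =
            s * (k * (τ * Real.log q / 2 + s * (τ * Real.log q) ^ 2 / 8 + (θ - 2 * ρ) * Real.log 2)) -
              s * (θ - 2 * ρ) * L := by ring
          rw [h7]
          linarith
      have g4 : ((N / 2 ^ k + 1 : ℕ) : ℝ) ≤ 2 * y := by
        push_cast
        have : ((N / 2 ^ k : ℕ) : ℝ) ≤ (N : ℝ) / ((2 ^ k : ℕ) : ℝ) := Nat.cast_div_le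
        push_cast at this
        rw [← hyy] at this
        linarith
      refine le_trans (Nat.cast_le.2 g1) ?_
      rw [Nat.cast_mul]
      calc ((B k).card : ℝ) * ((N / 2 ^ k + 1 : ℕ) : ℝ) ≤ (2 ^ k * Real.exp (-(η * L))) * (2 * y) :=
            mul_le_mul g3 g4 (Nat.cast_nonneg _) (by positivity)
        _ = 2 * N * Real.exp (-(η * L)) := by rw [hNy]; ring
    · -- the other classes
      have g1 : ∀ u ∈ Icc 1 M, (((range (2 ^ k) \ B k).biUnion (fun r =>
          (Icc 1 N).filter (fun m => m % 2 ^ k = r ∧ ¬ Q (u * (step q c)^[k] m)))).card : ℝ) ≤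
          2 * N / (c₀ * L) ^ (A + U + 2) := by
        intro u hu
        rw [mem_Icc] at hu
        have huL : (u : ℝ) ≤ L ^ U := by
          have : (u : ℝ) ≤ M := by exact_mod_cast hu.2
          linarith
        refine le_trans (Nat.cast_le.2 card_biUnion_le) ?_
        rw [Nat.cast_sum]
        have g2 : ∀ r ∈ range (2 ^ k) \ B k, (((Icc 1 N).filter (fun m => m % 2 ^ k = r ∧
            ¬ Q (u * (step q c)^[k] m))).card : ℝ) ≤ 2 * y / (c₀ * L) ^ (A + U + 2) := by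
          intro r hr
          rw [Finset.mem_sdiff] at hr
          apply good_class hq hc hcq θ ρ hρ0 hθ0 hθ1 Q (A + U + 2) (U + 1) x₀ hx₀ N k u r hu.1 y (c₀ * L) hyy
          · rw [div_le_iff₀ hc₀0] at f2
            linarith
          · exact hy1
          · exact (le_max_left _ _).trans hymax
          · exact hy11
          · push_cast
            rw [pow_one] at f1
            refine le_trans ?_ (f1.trans hy2)
            have : (c : ℝ) * k ≤ c * (κ * L) := mul_le_mul_of_nonneg_left hkr (Nat.cast_nonneg _)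
            linarith
          · refine huL.trans ?_
            rw [mul_pow]
            have h3 : 1 ≤ c₀ ^ (U + 1) * L := by
              have h4 : c₀ ^ (U + 1) * (1 / c₀) ^ (U + 1) = 1 := by
                rw [← mul_pow, mul_one_div_cancel hc₀0.ne', one_pow]
              have h5 := mul_le_mul_of_nonneg_left f3 (by positivity : (0 : ℝ) ≤ c₀ ^ (U + 1))
              linarith
            calc L ^ U = 1 * L ^ U := (one_mul _).symm
              _ ≤ (c₀ ^ (U + 1) * L) * L ^ U := mul_le_mul_of_nonneg_right h3 (by positivity)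
              _ = _ := by ring
          · have h3 : (u : ℝ) ≤ Real.exp (ρ * c₀ / 2 * L) := by
              rw [one_mul] at f5
              linarith
            have hu0 : (0 : ℝ) < u := by exact_mod_cast hu.1
            have h4 := Real.log_le_log hu0 h3
            rw [Real.log_exp] at h4
            have : 0 ≤ ρ * (c₀ * L) := by positivity
            nlinarith
          · by_contra hcon
            rw [not_le] at hcon
            apply hr.2
            rw [hB]
            simp only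
            rw [mem_filter]
            refine ⟨hr.1, ?_⟩
            rw [← hyy]
            exact hcon
        refine (sum_le_sum g2).trans ?_
        rw [sum_const, nsmul_eq_mul]
        have g5 : ((range (2 ^ k) \ B k).card : ℝ) ≤ 2 ^ k := by
          have := card_le_card (sdiff_subset (s := range (2 ^ k)) (t := B k))
          rw [card_range] at this
          exact_mod_cast this
        calc ((range (2 ^ k) \ B k).card : ℝ) * (2 * y / (c₀ * L) ^ (A + U + 2))
            ≤ 2 ^ k * (2 * y / (c₀ * L) ^ (A + U + 2)) := mul_le_mul_of_nonneg_right g5 (by positivity)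
          _ = 2 * N / (c₀ * L) ^ (A + U + 2) := by rw [hNy]; ring
      refine le_trans (Nat.cast_le.2 card_biUnion_le) ?_
      rw [Nat.cast_sum]
      refine (sum_le_sum g1).trans ?_
      rw [sum_const, nsmul_eq_mul, Nat.card_Icc, Nat.add_sub_cancel]
      exact mul_le_mul_of_nonneg_right hMr (by positivity)
  refine hcard'.trans ?_
  rw [sum_const, nsmul_eq_mul, card_range]
  push_cast
  have hK2 : (K : ℝ) + 1 ≤ (κ + 1) * L := by nlinarith
  have t1 : (κ + 1) * L * (2 * N * Real.exp (-(η * L))) ≤ N / L ^ A / 2 := by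
    rw [Real.exp_neg]
    have h1 : 8 * L ^ (A + 2) ≤ Real.exp (η * L) := f6
    have h2 : (κ + 1) * L ≤ L ^ 2 := by nlinarith
    rw [div_div, le_div_iff₀ (by positivity)]
    have h3 : (κ + 1) * L * (2 * N * (Real.exp (η * L))⁻¹) * (L ^ A * 2) =
      N * ((4 * ((κ + 1) * L) * L ^ A) / Real.exp (η * L)) := by
      field_simp
      ring
    rw [h3]
    have h4 : (4 * ((κ + 1) * L) * L ^ A) / Real.exp (η * L) ≤ 1 := by
      rw [div_le_one (Real.exp_pos _)]
      refine le_trans ?_ h1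
      have h5 : ((κ + 1) * L) * L ^ A ≤ L ^ 2 * L ^ A := mul_le_mul_of_nonneg_right h2 (by positivity)
      have h6 : L ^ 2 * L ^ A = L ^ (A + 2) := by ring
      have h7 : 0 ≤ L ^ (A + 2) := by positivity
      nlinarith
    have := mul_le_mul_of_nonneg_left h4 hN0.le
    linarith
  have t2 : (κ + 1) * L * (L ^ U * (2 * N / (c₀ * L) ^ (A + U + 2))) ≤ N / L ^ A / 2 := by
    have hcp : (0 : ℝ) < c₀ ^ (A + U + 2) := by positivity
    have h1 : (κ + 1) * L * (L ^ U * (2 * N / (c₀ * L) ^ (A + U + 2))) =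
      N / L ^ A * (2 * (κ + 1) * (1 / c₀) ^ (A + U + 2) / L) := by
      rw [mul_pow, one_div, inv_pow]
      field_simp
      ring
    rw [h1]
    have h2 : 2 * (κ + 1) * (1 / c₀) ^ (A + U + 2) / L ≤ 1 / 2 := by
      rw [div_le_iff₀ hL0]
      have : 0 ≤ (κ + 1) * (1 / c₀) ^ (A + U + 2) := by positivity
      linarith
    have := mul_le_mul_of_nonneg_left h2 (by positivity : (0 : ℝ) ≤ N / L ^ A)
    linarith
  have hfin : ((K : ℝ) + 1) * (2 * N * Real.exp (-(η * L)) + L ^ U * (2 * N / (c₀ * L) ^ (A + U + 2))) ≤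
      (κ + 1) * L * (2 * N * Real.exp (-(η * L)) + L ^ U * (2 * N / (c₀ * L) ^ (A + U + 2))) :=
    mul_le_mul_of_nonneg_right hK2 (by positivity)
  linarith

end Run7.h469.CT
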