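import Mathlib

/-! The `q x + c` maps: affine branches, the number of the odd elements of a trajectory, growth. -/

set_option autoImplicit false

namespace Run7.h469.CT

open Finset

/-- one step of the `q x + c` map -/
def step (q c n : ℕ) : ℕ := if n % 2 = 0 then n / 2 else (q * n + c) / 2

/-- the number of the odd integers among the first `k` elements of the trajectory of `n` -/
def odds (q c : ℕ) : ℕ → ℕ → ℕ
  | 0, _ => 0
  | k + 1, n => n % 2 + odds q c k (step q c n)

variable {q c : ℕ}

theorem odds_succ (q c k n : ℕ) : odds q c (k + 1) n = n % 2 + odds q c k (step q c n) := rfl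

theorem step_add (q c w n : ℕ) : step q c (2 * w + n) = q ^ (n % 2) * w + step q c n := by
  unfold step
  rcases Nat.mod_two_eq_zero_or_one n with h | h
  · have h1 : (2 * w + n) % 2 = 0 := by omega
    rw [if_pos h1, if_pos h, h, pow_zero, one_mul]
    omega
  · have h1 : (2 * w + n) % 2 ≠ 0 := by omega
    have h2 : n % 2 ≠ 0 := by omega
    rw [if_neg h1, if_neg h2, h, pow_one]
    have e : q * (2 * w + n) + c = 2 * (q * w) + (q * n + c) := by ring
    rw [e, Nat.mul_add_div (by norm_num)]

theorem iter_add (q c : ℕ) : ∀ k v r : ℕ,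
    (step q c)^[k] (2 ^ k * v + r) = q ^ (odds q c k r) * v + (step q c)^[k] r := by
  intro k
  induction k with
  | zero => intro v r; simp [odds]
  | succ k ih =>
    intro v r
    rw [Function.iterate_succ_apply, Function.iterate_succ_apply]
    have e : 2 ^ (k + 1) * v + r = 2 * (2 ^ k * v) + r := by ring
    rw [e, step_add]
    have e2 : q ^ (r % 2) * (2 ^ k * v) + step q c r = 2 ^ k * (q ^ (r % 2) * v) + step q c r := by ring
    rw [e2, ih, odds_succ, pow_add]
    ring

theorem odds_add (q c : ℕ) : ∀ k v r : ℕ, odds q c k (2 ^ k * v + r) = odds q c k r := by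
  intro k
  induction k with
  | zero => intro v r; rfl
  | succ k ih =>
    intro v r
    have e : 2 ^ (k + 1) * v + r = 2 * (2 ^ k * v) + r := by ring
    rw [odds_succ, odds_succ, e, step_add]
    have e2 : q ^ (r % 2) * (2 ^ k * v) + step q c r = 2 ^ k * (q ^ (r % 2) * v) + step q c r := by ring
    rw [e2, ih]
    congr 1
    omega

theorem odds_mod (q c k n : ℕ) : odds q c k n = odds q c k (n % 2 ^ k) := by
  conv_lhs => rw [← Nat.div_add_mod n (2 ^ k)]
  rw [odds_add]

theorem sum_two (f : ℕ → ℝ) (M : ℕ) :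
    ∑ r ∈ range (2 * M), f r = ∑ s ∈ range M, (f (2 * s) + f (2 * s + 1)) := by
  induction M with
  | zero => simp
  | succ M ih =>
    rw [sum_range_succ, ← ih, show 2 * (M + 1) = 2 * M + 1 + 1 by ring, sum_range_succ, sum_range_succ]
    ring

theorem shift_sum (hq : Odd q) (k d : ℕ) (F : ℕ → ℝ) (hF : ∀ n, 0 ≤ F n) (hmod : ∀ n, F n = F (n % 2 ^ k)) :
    ∑ s ∈ range (2 ^ k), F (q * s + d) ≤ ∑ s ∈ range (2 ^ k), F s := by
  classical
  have hinj : Set.InjOn (fun s => (q * s + d) % 2 ^ k) (range (2 ^ k) : Set ℕ) := by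
    intro s hs s' hs' h
    rw [coe_range, Set.mem_Iio] at hs hs'
    have h1 : q * s + d ≡ q * s' + d [MOD 2 ^ k] := h
    have h2 : q * s ≡ q * s' [MOD 2 ^ k] := Nat.ModEq.add_right_cancel' d h1
    have hco : Nat.gcd (2 ^ k) q = 1 := by
      apply Nat.Coprime.pow_left
      rw [Nat.coprime_two_left]
      exact hq
    have h3 : s ≡ s' [MOD 2 ^ k] := Nat.ModEq.cancel_left_of_coprime hco h2
    have h4 : s % 2 ^ k = s' % 2 ^ k := h3
    rwa [Nat.mod_eq_of_lt hs, Nat.mod_eq_of_lt hs'] at h4
  calc ∑ s ∈ range (2 ^ k), F (q * s + d) = ∑ s ∈ range (2 ^ k), F ((q * s + d) % 2 ^ k) :=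
        sum_congr rfl (fun s _ => hmod _)
    _ = ∑ y ∈ (range (2 ^ k)).image (fun s => (q * s + d) % 2 ^ k), F y := (sum_image hinj).symm
    _ ≤ ∑ s ∈ range (2 ^ k), F s := by
        apply sum_le_sum_of_subset_of_nonneg
        · intro y hy
          rw [mem_image] at hy
          obtain ⟨s, -, rfl⟩ := hy
          rw [mem_range]
          exact Nat.mod_lt _ (by positivity)
        · intro i _ _
          exact hF i

theorem moment (hq : Odd q) (z : ℝ) (hz : 0 ≤ z) : ∀ k : ℕ,
    ∑ r ∈ range (2 ^ k), z ^ (odds q c k r) ≤ (1 + z) ^ k := by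
  intro k
  induction k with
  | zero => simp [odds]
  | succ k ih =>
    rw [show 2 ^ (k + 1) = 2 * 2 ^ k by ring, sum_two, sum_add_distrib]
    have e1 : ∑ s ∈ range (2 ^ k), z ^ (odds q c (k + 1) (2 * s)) = ∑ s ∈ range (2 ^ k), z ^ (odds q c k s) := by
      apply sum_congr rfl
      intro s _
      congr 1
      rw [odds_succ]
      have h1 : (2 * s) % 2 = 0 := by omega
      have h2 : step q c (2 * s) = s := by
        unfold step
        rw [if_pos h1]
        omega
      rw [h1, h2]
      omega
    have e2 : ∑ s ∈ range (2 ^ k), z ^ (odds q c (k + 1) (2 * s + 1)) =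
        z * ∑ s ∈ range (2 ^ k), z ^ (odds q c k (q * s + step q c 1)) := by
      rw [mul_sum]
      apply sum_congr rfl
      intro s _
      rw [← pow_succ']
      congr 1
      rw [odds_succ, step_add]
      have h1 : (2 * s + 1) % 2 = 1 := by omega
      rw [h1]
      norm_num
      ring
    rw [e1, e2]
    have h3 := shift_sum hq k (step q c 1) (fun n => z ^ (odds q c k n)) (fun n => by positivity)
      (fun n => by
        change z ^ (odds q c k n) = z ^ (odds q c k (n % 2 ^ k))
        rw [← odds_mod])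
    calc ∑ s ∈ range (2 ^ k), z ^ (odds q c k s) + z * ∑ s ∈ range (2 ^ k), z ^ (odds q c k (q * s + step q c 1))
        ≤ ∑ s ∈ range (2 ^ k), z ^ (odds q c k s) + z * ∑ s ∈ range (2 ^ k), z ^ (odds q c k s) := by
          have := mul_le_mul_of_nonneg_left h3 hz
          linarith
      _ = (1 + z) * ∑ s ∈ range (2 ^ k), z ^ (odds q c k s) := by ring
      _ ≤ (1 + z) * (1 + z) ^ k := mul_le_mul_of_nonneg_left ih (by linarith)
      _ = (1 + z) ^ (k + 1) := by ring

theorem coprime_step_odd (hq : Odd q) (hcq : Nat.Coprime c q) {n : ℕ} (hc : Odd c) (hn : n % 2 ≠ 0) :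
    Nat.Coprime (step q c n) q := by
  unfold step
  rw [if_neg hn]
  have hn1 : Odd n := Nat.odd_iff.2 (by omega)
  have hev : Even (q * n + c) := (hq.mul hn1).add_odd hc
  have h2 : 2 ∣ q * n + c := hev.two_dvd
  have h1 : Nat.Coprime (q * n + c) q := by
    rw [Nat.coprime_mul_left_add_left]
    exact hcq
  exact Nat.Coprime.coprime_dvd_left (Nat.div_dvd_of_dvd h2) h1

theorem coprime_step (hq : Odd q) (hcq : Nat.Coprime c q) (hc : Odd c) {n : ℕ} (hn : Nat.Coprime n q) :
    Nat.Coprime (step q c n) q := by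
  by_cases h : n % 2 = 0
  · unfold step
    rw [if_pos h]
    exact Nat.Coprime.coprime_dvd_left (Nat.div_dvd_of_dvd (Nat.dvd_of_mod_eq_zero h)) hn
  · exact coprime_step_odd hq hcq hc h

theorem coprime_iter (hq : Odd q) (hcq : Nat.Coprime c q) (hc : Odd c) : ∀ (k : ℕ) {n : ℕ}, Nat.Coprime n q →
    Nat.Coprime ((step q c)^[k] n) q := by
  intro k
  induction k with
  | zero => intro n hn; exact hn
  | succ k ih =>
    intro n hn
    rw [Function.iterate_succ_apply]
    exact ih (coprime_step hq hcq hc hn)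

theorem coprime_of_odds (hq : Odd q) (hcq : Nat.Coprime c q) (hc : Odd c) : ∀ (k n : ℕ), odds q c k n ≠ 0 →
    Nat.Coprime ((step q c)^[k] n) q := by
  intro k
  induction k with
  | zero => intro n hn; exact absurd rfl hn
  | succ k ih =>
    intro n hn
    rw [Function.iterate_succ_apply]
    by_cases h : n % 2 = 0
    · apply ih
      rw [odds_succ, h] at hn
      omega
    · exact coprime_iter hq hcq hc k (coprime_step_odd hq hcq hc h)

theorem coprime_pow (hq : Odd q) (hcq : Nat.Coprime c q) (hc : Odd c) (k n : ℕ) :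
    Nat.Coprime ((step q c)^[k] n) (q ^ (odds q c k n)) := by
  by_cases h : odds q c k n = 0
  · rw [h, pow_zero]
    exact Nat.coprime_one_right _
  · exact Nat.Coprime.pow_right _ (coprime_of_odds hq hcq hc k n h)

theorem growth (hq : 1 ≤ q) : ∀ k n : ℕ, 2 ^ k * (step q c)^[k] n ≤ q ^ (odds q c k n) * (n + c * k * 2 ^ k) := by
  intro k
  induction k with
  | zero => intro n; simp [odds]
  | succ k ih =>
    intro n
    rw [Function.iterate_succ_apply]
    have h1 := ih (step q c n)
    have h2 : 2 * step q c n ≤ q ^ (n % 2) * n + c := by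
      unfold step
      rcases Nat.mod_two_eq_zero_or_one n with h | h
      · rw [if_pos h, h, pow_zero, one_mul]
        omega
      · rw [if_neg (by omega), h, pow_one]
        omega
    have h3 : 1 ≤ q ^ (n % 2) := Nat.one_le_pow _ _ hq
    rw [odds_succ, pow_add]
    calc 2 ^ (k + 1) * (step q c)^[k] (step q c n) = 2 * (2 ^ k * (step q c)^[k] (step q c n)) := by ring
      _ ≤ 2 * (q ^ (odds q c k (step q c n)) * (step q c n + c * k * 2 ^ k)) := Nat.mul_le_mul_left _ h1
      _ = q ^ (odds q c k (step q c n)) * (2 * step q c n + c * k * 2 ^ (k + 1)) := by ring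
      _ ≤ q ^ (odds q c k (step q c n)) * (q ^ (n % 2) * (n + c * (k + 1) * 2 ^ (k + 1))) := by
          apply Nat.mul_le_mul_left
          have h4 : c ≤ c * 2 ^ (k + 1) := Nat.le_mul_of_pos_right _ (by positivity)
          calc 2 * step q c n + c * k * 2 ^ (k + 1) ≤ q ^ (n % 2) * n + c + c * k * 2 ^ (k + 1) := by omega
            _ ≤ q ^ (n % 2) * n + (c * 2 ^ (k + 1) + c * k * 2 ^ (k + 1)) := by omega
            _ = q ^ (n % 2) * n + 1 * (c * (k + 1) * 2 ^ (k + 1)) := by ring
            _ ≤ q ^ (n % 2) * n + q ^ (n % 2) * (c * (k + 1) * 2 ^ (k + 1)) := by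
                apply Nat.add_le_add_left
                exact Nat.mul_le_mul_right _ h3
            _ = _ := by ring
      _ = _ := by ring

theorem step_pos (hq : 1 ≤ q) (hc : 1 ≤ c) {n : ℕ} (hn : 1 ≤ n) : 1 ≤ step q c n := by
  unfold step
  split_ifs with h
  · omega
  · have : 1 ≤ q * n := Nat.mul_pos hq hn
    omega

theorem iter_pos (hq : 1 ≤ q) (hc : 1 ≤ c) : ∀ (k : ℕ) {n : ℕ}, 1 ≤ n → 1 ≤ (step q c)^[k] n := by
  intro k
  induction k with
  | zero => intro n hn; exact hn
  | succ k ih =>
    intro n hn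
    rw [Function.iterate_succ_apply]
    exact ih (step_pos hq hc hn)

end Run7.h469.CT
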